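import Pool.Agent.H.MP_b7496a_gt.Omega

/-! # No family of `ℵ₁` set-valued maps detects that a space is not `C`-selective -/

set_option autoImplicit false

open Topology Filter Set

namespace Pool.Agent.Results.MP_b7496a_gt.AlephOneMaps

open Pool.Agent.Sel

/-- Let `ψ i`, `i ∈ ι`, `|ι| ≤ ℵ₁`, be maps from countable regular spaces `Y i` to the subsets of
`ℕ ∪ {∞}` (`∞ = none`).  There is a regular topology on `ℕ ∪ {∞}` in which all points of `ℕ` are
isolated, which is not `C`-selective, and such that every `ψ i` which has nonempty values and is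
lower semicontinuous has a continuous selection. -/
theorem result {ι : Type} (hι : Cardinal.mk ι ≤ Cardinal.aleph 1) (Y : ι → Type)
    [∀ i, TopologicalSpace (Y i)] [∀ i, T3Space (Y i)] [∀ i, Countable (Y i)]
    (ψ : ∀ i, Y i → Set (Option ℕ)) :
    ∃ _ : TopologicalSpace (Option ℕ), T3Space (Option ℕ) ∧ (∀ n : ℕ, IsOpen {some n}) ∧
      ¬ CSelective (Option ℕ) ∧
      ∀ i, (∀ y, (ψ i y).Nonempty) → LSC (ψ i) →
        ∃ f : Y i → Option ℕ, Continuous f ∧ ∀ y, f y ∈ ψ i y := by
  obtain ⟨H, hH1, hH2, hH3, hH4⟩ := exists_filter hι Y ψ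
  have hc : ∀ n : ℕ, ({n}ᶜ : Set ℕ) ∈ H := fun n => hH1 (finite_singleton n).compl_mem_cofinite
  let τ : TopologicalSpace (Option ℕ) := pt H
  have h3 : T3Space (Option ℕ) := t3_pt hc
  refine ⟨τ, h3, fun n => isOpen_singleton_pt (by simp), fun h => hH3 ?_, hH4⟩
  have h1 := h.hit (I := ℕ) (A := fun n => {some n}) (fun n => isClosed_singleton) none
  have h2 : hitFilter (fun n : ℕ => ({some n} : Set (Option ℕ))) none = H := by
    ext N
    rw [mem_hitFilter]
    constructor
    · rintro ⟨U, hU, hU2⟩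
      refine Filter.mem_of_superset (mem_nhds_pt.1 hU).2 fun n hn => hU2 n ⟨some n, rfl, hn⟩
    · intro hN
      refine ⟨insert none (some '' N), ?_, ?_⟩
      · rw [mem_nhds_pt]
        exact ⟨Or.inl rfl, Filter.mem_of_superset hN fun n hn => Or.inr ⟨n, hn, rfl⟩⟩
      · rintro n ⟨z, hz, h4 | ⟨k, hk, h4⟩⟩
        · rw [mem_singleton_iff.1 hz] at h4
          exact absurd h4 (by simp)
        · rw [mem_singleton_iff.1 hz] at h4
          rw [← Option.some_injective _ h4]
          exact hk
  rwa [h2] at h1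

end Pool.Agent.Results.MP_b7496a_gt.AlephOneMaps
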