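import Pool.Agent.H.MP_b7496a_gt.FinSel

/-! # A `ℚ`-selective space which is not `C`-selective yields a countable Fréchet `α₁` space which is
not first countable -/

set_option autoImplicit false

open Topology Filter Set

namespace Pool.Agent.Results.MP_b7496a_gt.CountableFrechet

open Pool.Agent.Sel

universe u

/-- If some `T1` space is `ℚ`-selective but not `C`-selective then there is a countable regular space
with exactly one non-isolated point which is Fréchet-Urysohn, has the property `α₁`, is not first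
countable, and in which every lower semicontinuous map from `ℚ` to the nonempty finite sets has a
continuous selection. -/
theorem result (X : Type u) [TopologicalSpace X] [T1Space X] (h : QSelective X)
    (hn : ¬ CSelective X) :
    ∃ (Z : Type) (_ : TopologicalSpace Z), Countable Z ∧ T3Space Z ∧
      (∃ a : Z, ∀ z, z ≠ a → IsOpen {z}) ∧ ¬ FirstCountableTopology Z ∧
      FrechetUrysohnSpace Z ∧ AlphaOne Z ∧
      ∀ ψ : ℚ → Set Z, (∀ q, (ψ q).Finite ∧ (ψ q).Nonempty) → LSC ψ →
        ∃ f : ℚ → Z, Continuous f ∧ ∀ q, f q ∈ ψ q := by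
  obtain ⟨A, hA, b, hb⟩ : ∃ A : ℕ → Set X, (∀ n, IsClosed (A n)) ∧
      ∃ b, ¬ (hitFilter A b).IsCountablyGenerated := by
    by_contra h1
    refine hn (h.cSelective fun A hA b => ?_)
    by_contra h2
    exact h1 ⟨A, hA, b, h2⟩
  obtain ⟨B, hB⟩ : ∃ B : {i // b ∉ A i ∧ (A i).Nonempty} → Set X, B = fun i => A i.1 := ⟨_, rfl⟩
  have hBc : ∀ i, IsClosed (B i) := fun i => by rw [hB]; exact hA i.1
  have hBb : ∀ i, b ∉ B i := fun i => by rw [hB]; exact i.2.1
  have hBn : ∀ i, (B i).Nonempty := fun i => by rw [hB]; exact i.2.2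
  refine ⟨Option {i // b ∉ A i ∧ (A i).Nonempty}, pt (hitFilter B b), inferInstance,
    t3_pt fun i => compl_mem_hitFilter (hBc i) (hBb i),
    ⟨none, fun z hz => isOpen_singleton_pt hz⟩, fun h1 => hb ?_, h.frechet hBc hBn,
    h.alphaOne hBc hBb hBn, fun ψ hψ hl => h.finite hBc hBb hBn hψ hl⟩
  have h2 : (hitFilter B b).IsCountablyGenerated := cg_of_firstCountable_pt h1
  rw [hitFilter_eq, ← hB]
  infer_instance

end Pool.Agent.Results.MP_b7496a_gt.CountableFrechet
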