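import Pool.Agent.H.MP_b7496a_gt.Hit

/-! # `C`-selective spaces: `ℚ`-selective spaces with countably generated hit filters -/

set_option autoImplicit false

open Topology Filter Set

namespace Pool.Agent.Results.MP_b7496a_gt.HitFilters

open Pool.Agent.Sel

universe u

/-- A `T1` space is `C`-selective if and only if it is `ℚ`-selective and for every point `b` and
every sequence of closed sets `A n` the filter on `ℕ` generated by the sets
`{n | A n ∩ U ≠ ∅}`, `U` a neighbourhood of `b`, is countably generated. -/
theorem result (X : Type u) [TopologicalSpace X] [T1Space X] :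
    CSelective X ↔ QSelective X ∧ ∀ A : ℕ → Set X, (∀ n, IsClosed (A n)) →
      ∀ b, (hitFilter A b).IsCountablyGenerated :=
  ⟨fun h => ⟨h.qSelective, fun _ hA b => h.hit hA b⟩, fun h => h.1.cSelective h.2⟩

end Pool.Agent.Results.MP_b7496a_gt.HitFilters
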