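import Pool.Agent.H.MP_b7496a_gt.Omega
import Pool.Agent.H.MP_b7496a_gt.FinSel

/-! # Q1 under two consistent hypotheses: yes under `CH`, no if countable Fréchet `α₁` spaces are
first countable -/

set_option autoImplicit false

open Topology Filter Set

namespace Pool.Agent.Results.MP_b7496a_gt.Independence

open Pool.Agent.Sel

universe u

/-- Under the continuum hypothesis there is a countable regular space (with at most one
non-isolated point) which is `ℚ`-selective and not `C`-selective. If every countable regular
Fréchet-Urysohn space with the property `α₁` is first countable (by a theorem of Dow and Steprans,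
not used here, this is consistent with `ZFC`), then every `ℚ`-selective `T₁` space, of any size, is
`C`-selective. -/
theorem result :
    (Cardinal.aleph.{0} 1 = Cardinal.continuum →
      ∃ (X : Type) (_ : TopologicalSpace X), Countable X ∧ T3Space X ∧
        (∃ a : X, ∀ x, x ≠ a → IsOpen {x}) ∧ QSelective X ∧ ¬ CSelective X) ∧
    ((∀ (Z : Type) [TopologicalSpace Z], Countable Z → T3Space Z → FrechetUrysohnSpace Z →
        AlphaOne Z → FirstCountableTopology Z) →
      ∀ (X : Type u) [TopologicalSpace X] [T1Space X], QSelective X → CSelective X) := by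
  constructor
  · intro hCH
    have hι : Cardinal.mk (ℚ → Set (Option ℕ)) ≤ Cardinal.aleph 1 := by
      have h1 : Cardinal.mk (ℚ → Set (Option ℕ)) = Cardinal.continuum := by
        simp
      rw [h1, ← hCH]
    obtain ⟨H, hH1, hH2, hH3, hH4⟩ := exists_filter hι (fun _ => ℚ) (fun i => i)
    have hc : ∀ n : ℕ, ({n}ᶜ : Set ℕ) ∈ H := fun n => hH1 (finite_singleton n).compl_mem_cofinite
    let τ : TopologicalSpace (Option ℕ) := pt H
    have h3 : T3Space (Option ℕ) := t3_pt hc
    refine ⟨Option ℕ, τ, inferInstance, h3, ⟨none, fun x hx => isOpen_singleton_pt hx⟩,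
      fun φ hφ hl => hH4 φ (fun y => (hφ y).2) hl, fun h => hH3 ?_⟩
    have h1 := h.hit (I := ℕ) (A := fun n => {some n}) (fun n => isClosed_singleton) none
    have h2 : hitFilter (fun n : ℕ => ({some n} : Set (Option ℕ))) none = H := by
      ext N
      rw [mem_hitFilter]
      constructor
      · rintro ⟨U, hU, hU2⟩
        refine Filter.mem_of_superset (mem_nhds_pt.1 hU).2 fun n hn => hU2 n ⟨some n, rfl, hn⟩
      · intro hN
        refine ⟨insert none (some '' N), ?_, ?_⟩
        · rw [mem_nhds_pt]
          exact ⟨Or.inl rfl, Filter.mem_of_superset hN fun n hn => Or.inr ⟨n, hn, rfl⟩⟩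
        · rintro n ⟨z, hz, h4 | ⟨k, hk, h4⟩⟩
          · rw [mem_singleton_iff.1 hz] at h4
            exact absurd h4 (by simp)
          · rw [mem_singleton_iff.1 hz] at h4
            rw [← Option.some_injective _ h4]
            exact hk
    rwa [h2] at h1
  · intro hDS X _ _ h
    refine h.cSelective fun A hA b => ?_
    obtain ⟨B, hB⟩ : ∃ B : {i // b ∉ A i ∧ (A i).Nonempty} → Set X, B = fun i => A i.1 :=
      ⟨_, rfl⟩
    have hBc : ∀ i, IsClosed (B i) := fun i => by rw [hB]; exact hA i.1
    have hBb : ∀ i, b ∉ B i := fun i => by rw [hB]; exact i.2.1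
    have hBn : ∀ i, (B i).Nonempty := fun i => by rw [hB]; exact i.2.2
    let τ : TopologicalSpace (Option {i // b ∉ A i ∧ (A i).Nonempty}) := pt (hitFilter B b)
    have hfc := hDS (Option {i // b ∉ A i ∧ (A i).Nonempty}) inferInstance
      (t3_pt fun i => compl_mem_hitFilter (hBc i) (hBb i)) (h.frechet hBc hBn)
      (h.alphaOne hBc hBb hBn)
    have h2 : (hitFilter B b).IsCountablyGenerated := cg_of_firstCountable_pt hfc
    rw [hitFilter_eq, ← hB]
    infer_instance

end Pool.Agent.Results.MP_b7496a_gt.Independence
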